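import Pool.Agent.H547_h.Inner

/-!
# The sublists and the total set of generators
-/

set_option autoImplicit false

namespace Pool.Agent.H547_h

open Finset

section

variable {M : ℕ}

open scoped Classical in
/-- union of the sets `EK` over all sublists -/
noncomputable def KK (M : ℕ) : List ℕ → Finset (ZMod M)
  | [] => {0}
  | n :: L => KK M L ∪ ((U n).erase 1 ×ˢ KK M L).image fun q => ((q.1 * (M / n) : ℕ) : ZMod M) + q.2

open scoped Classical in
/-- union of the sets `EB` over all sublists -/
noncomputable def BB (M : ℕ) : List ℕ → Bool → Finset (ZMod M)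
  | [], s => if s then ∅ else {0}
  | n :: L, s => BB M L s ∪
      ((Hh n ×ˢ KK M L).image fun q => ((q.1 * (M / n) : ℕ) : ZMod M) + q.2) ∪
        (BB M L (!s)).image fun w => ((1 * (M / n) : ℕ) : ZMod M) + w

lemma EK_sub : ∀ {L L0 : List ℕ}, L.Sublist L0 → EK M L ⊆ ↑(KK M L0) := by
  classical
  intro L L0 h
  induction h with
  | slnil =>
    intro z hz
    simpa [EK, KK] using hz
  | cons n h ih =>
    intro z hz
    have := ih hz
    simp only [KK, coe_union]
    exact Or.inl this
  | cons_cons n h ih =>
    intro z hz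
    obtain ⟨u, hu, hu1, w, hw, rfl⟩ := hz
    simp only [KK, mem_coe, mem_union, mem_image, mem_product]
    exact Or.inr ⟨(u, w), ⟨mem_erase.2 ⟨hu1, hu⟩, ih hw⟩, rfl⟩

lemma EB_sub : ∀ {L L0 : List ℕ}, L.Sublist L0 → ∀ s, EB M L s ⊆ ↑(BB M L0 s) := by
  classical
  intro L L0 h
  induction h with
  | slnil =>
    intro s z hz
    obtain ⟨h1, h2⟩ := hz
    rw [h1, h2]
    simp [BB]
  | cons n h ih =>
    intro s z hz
    have := ih s hz
    simp only [BB, coe_union]
    exact Or.inl (Or.inl this)
  | cons_cons n h ih =>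
    intro s z hz
    simp only [BB, mem_coe, mem_union, mem_image, mem_product]
    rcases hz with ⟨u, hu, w, hw, rfl⟩ | ⟨w, hw, rfl⟩
    · exact Or.inl (Or.inr ⟨(u, w), ⟨hu, EK_sub h hw⟩, rfl⟩)
    · exact Or.inr ⟨w, ih _ hw, rfl⟩

/-- the product of the numbers of the units -/
def gg (L : List ℕ) : ℕ := (L.map Nat.totient).prod

lemma card_KK : ∀ (L : List ℕ), (∀ n ∈ L, 3 ≤ n) → (KK M L).card ≤ gg L := by
  classical
  intro L
  induction L with
  | nil =>
    intro _
    simp [KK, gg]
  | cons n L ih =>
    intro hL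
    have hn := hL n (List.mem_cons_self)
    have h1 := ih fun n' hn' => hL n' (List.mem_cons_of_mem _ hn')
    have h2 := one_mem_U (n := n) (by omega)
    simp only [KK]
    refine (card_union_le _ _).trans ?_
    have h3 := card_image_le (s := (U n).erase 1 ×ˢ KK M L)
      (f := fun q : ℕ × ZMod M => ((q.1 * (M / n) : ℕ) : ZMod M) + q.2)
    rw [card_product, card_erase_of_mem h2, card_U] at h3
    have h4 : gg (n :: L) = Nat.totient n * gg L := by simp [gg]
    rw [h4]
    have h5 : 0 < Nat.totient n := Nat.totient_pos.2 (by omega)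
    calc (KK M L).card + _ ≤ (KK M L).card + (Nat.totient n - 1) * (KK M L).card :=
          Nat.add_le_add_left h3 _
      _ = Nat.totient n * (KK M L).card := by
          rw [← Nat.succ_pred_eq_of_pos h5]
          simp only [Nat.succ_eq_add_one, Nat.pred_eq_sub_one, Nat.add_sub_cancel]
          ring
      _ ≤ _ := Nat.mul_le_mul_left _ h1

/-- the bound for the number of the generators -/
def bb : List ℕ → Bool → ℕ
  | [], s => if s then 0 else 1
  | n :: L, s => bb L s + (Hh n).card * gg L + bb L (!s)

lemma card_BB : ∀ (L : List ℕ), (∀ n ∈ L, 3 ≤ n) → ∀ s, (BB M L s).card ≤ bb L s := by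
  classical
  intro L
  induction L with
  | nil =>
    intro _ s
    cases s <;> simp [BB, bb]
  | cons n L ih =>
    intro hL s
    have hL' : ∀ n' ∈ L, 3 ≤ n' := fun n' hn' => hL n' (List.mem_cons_of_mem _ hn')
    simp only [BB, bb]
    refine (card_union_le _ _).trans (Nat.add_le_add ((card_union_le _ _).trans
      (Nat.add_le_add (ih hL' s) ?_)) (card_image_le.trans (ih hL' _)))
    refine card_image_le.trans ?_
    rw [card_product]
    exact Nat.mul_le_mul_left _ (card_KK L hL')

lemma bb_add : ∀ (L : List ℕ), (∀ n ∈ L, 3 ≤ n) → bb L true + bb L false ≤ gg L := by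
  intro L
  induction L with
  | nil =>
    intro _
    simp [bb, gg]
  | cons n L ih =>
    intro hL
    have hn := hL n (List.mem_cons_self)
    have h1 := ih fun n' hn' => hL n' (List.mem_cons_of_mem _ hn')
    have h4 : gg (n :: L) = Nat.totient n * gg L := by simp [gg]
    rw [h4]
    have h5 := card_Hh hn
    simp only [bb, Bool.not_true, Bool.not_false]
    calc bb L true + (Hh n).card * gg L + bb L false + (bb L false + (Hh n).card * gg L + bb L true)
        = 2 * (bb L true + bb L false) + 2 * (Hh n).card * gg L := by ring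
      _ ≤ 2 * gg L + 2 * (Hh n).card * gg L := by omega
      _ = (2 * (Hh n).card + 2) * gg L := by ring
      _ ≤ _ := Nat.mul_le_mul_right _ h5

lemma two_bb {n : ℕ} {L : List ℕ} (hL : ∀ n' ∈ n :: L, 3 ≤ n') (s : Bool) :
    2 * bb (n :: L) s ≤ gg (n :: L) := by
  have hn := hL n (List.mem_cons_self)
  have h1 := bb_add L fun n' hn' => hL n' (List.mem_cons_of_mem _ hn')
  have h4 : gg (n :: L) = Nat.totient n * gg L := by simp [gg]
  rw [h4]
  have h5 := card_Hh hn
  have h6 : bb L s + bb L (!s) = bb L true + bb L false := by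
    cases s
    · simp only [Bool.not_false]; ring
    · simp only [Bool.not_true]
  simp only [bb]
  calc 2 * (bb L s + (Hh n).card * gg L + bb L (!s))
      = 2 * (bb L s + bb L (!s)) + 2 * (Hh n).card * gg L := by ring
    _ ≤ 2 * gg L + 2 * (Hh n).card * gg L := by omega
    _ = (2 * (Hh n).card + 2) * gg L := by ring
    _ ≤ _ := Nat.mul_le_mul_right _ h5

lemma gg_eq : ∀ (L : List ℕ), L.Pairwise Nat.Coprime → gg L = Nat.totient L.prod := by
  intro L
  induction L with
  | nil =>
    intro _
    simp [gg]
  | cons n L ih =>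
    intro h
    rw [List.pairwise_cons] at h
    have h4 : gg (n :: L) = Nat.totient n * gg L := by simp [gg]
    rw [h4, ih h.2, List.prod_cons, Nat.totient_mul]
    exact Nat.coprime_list_prod_right_iff.2 h.1

open scoped Classical in
/-- the exceptional sublists -/
noncomputable def EE0 (L0 : List ℕ) (s : Bool) : Finset (List ℕ) :=
  L0.sublists.toFinset.filter fun L => ex L s = true

lemma mem_EE0 {L0 L : List ℕ} {s : Bool} : L ∈ EE0 L0 s ↔ L.Sublist L0 ∧ ex L s = true := by
  classical
  unfold EE0
  rw [mem_filter, List.mem_toFinset, List.mem_sublists]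

lemma card_EE0_le : ∀ (L0 : List ℕ), (EE0 L0 true).card + (EE0 L0 false).card ≤
      2 ^ L0.length := by
  classical
  intro L0
  have hd : Disjoint (EE0 L0 true) (EE0 L0 false) := by
    rw [disjoint_left]
    intro L h1 h2
    rw [mem_EE0] at h1 h2
    have : ∀ (L : List ℕ), ex L true = ! ex L false := by
      intro L
      have : ∀ (L : List ℕ) (s : Bool), ex L (!s) = ! ex L s := by
        intro L
        induction L with
        | nil => intro s; rfl
        | cons n L ih => intro s; simp only [ex]; rw [ih]
      exact this L false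
    have h3 := this L
    rw [h1.2, h2.2] at h3
    simp at h3
  rw [← card_union_of_disjoint hd]
  have h1 : EE0 L0 true ∪ EE0 L0 false ⊆ L0.sublists.toFinset := by
    intro L hL
    rw [mem_union] at hL
    rcases hL with h | h
    · exact (mem_filter.1 h).1
    · exact (mem_filter.1 h).1
  refine (card_le_card h1).trans ?_
  refine (List.toFinset_card_le _).trans ?_
  rw [List.length_sublists]

lemma card_EE0 {n : ℕ} {L0 : List ℕ} (s : Bool) : (EE0 (n :: L0) s).card ≤ 2 ^ L0.length := by
  classical
  have h1 : EE0 (n :: L0) s ⊆ EE0 L0 s ∪ (EE0 L0 (!s)).image (List.cons n) := by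
    intro L hL
    rw [mem_EE0] at hL
    rw [mem_union, mem_image]
    rcases List.sublist_cons_iff.1 hL.1 with h | ⟨L', rfl, h⟩
    · exact Or.inl (mem_EE0.2 ⟨h, hL.2⟩)
    · exact Or.inr ⟨L', mem_EE0.2 ⟨h, hL.2⟩, rfl⟩
  refine (card_le_card h1).trans ((card_union_le _ _).trans
    ((Nat.add_le_add_left card_image_le _).trans ?_))
  have h2 := card_EE0_le L0
  cases s
  · simp only [Bool.not_false]; omega
  · simp only [Bool.not_true]; exact h2

end

end Pool.Agent.H547_h
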