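import Pool.Agent.H547_h.Tors
import Pool.Agent.H916K.Double

/-!
# The number of the values of relations under an odd distribution: general level
-/

set_option autoImplicit false

namespace Pool.Agent.H547_h

open Finset Pool.Agent.H916R2

/-- the number of the odd prime divisors, plus one if the number is divisible by four -/
def rk (m : ℕ) : ℕ := (m.primeFactors.filter fun q => q ≠ 2 ∨ 4 ∣ m).card

lemma TV_red {m M k : ℕ} [NeZero m] [NeZero M] (h : Red m M k) {Q : Type} [AddCommGroup Q]
    {c : ZMod m → Q} (hc : OddDist c) :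
    TV c ⊆ TV (fun b : ZMod M => c (iota k b)) := by
  rintro q ⟨x, hx, rfl⟩
  obtain ⟨x0, hx0, h1⟩ := h Q c hc x hx
  exact ⟨x0, hx0, h1.symm⟩

lemma TV_triv {m : ℕ} [NeZero m] {Q : Type} [AddCommGroup Q] {c : ZMod m → Q}
    (hc : ∀ a, c a = 0) : TV c ⊆ {0} := by
  rintro q ⟨x, _, rfl⟩
  rw [Set.mem_singleton_iff]
  exact sum_eq_zero fun a _ => by rw [hc a, smul_zero]

lemma pairwise_toList (S : Finset ℕ) (hS : ∀ q ∈ S, q.Prime) :
    S.toList.Pairwise Nat.Coprime := by
  have h1 : S.toList.Pairwise (fun a b => a ≠ b) := S.nodup_toList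
  refine h1.imp_of_mem ?_
  intro a b ha hb hab
  exact (Nat.coprime_primes (hS a (mem_toList.1 ha)) (hS b (mem_toList.1 hb))).2 hab

lemma prod_toList (S : Finset ℕ) : S.toList.prod = ∏ q ∈ S, q := by
  have := Finset.prod_map_toList S (fun q : ℕ => q)
  rw [List.map_id'] at this
  exact this

/-- **The bound for the torsion.** -/
theorem tors_main {m : ℕ} [NeZero m] {Q : Type} [AddCommGroup Q] (c : ZMod m → Q)
    (hc : OddDist c) : (TV c).Finite ∧ (TV c).ncard ≤ 2 ^ (2 ^ (rk m - 1) - 1) := by
  classical
  have hm0 : m ≠ 0 := NeZero.ne m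
  set S := m.primeFactors.erase 2 with hS
  have hSp : ∀ q ∈ S, q.Prime := fun q hq => Nat.prime_of_mem_primeFactors (mem_of_mem_erase hq)
  have hS2 : ∀ q ∈ S, q ≠ 2 := fun q hq => ne_of_mem_erase hq
  have hSm : (∏ q ∈ S, q) ∣ m := by
    refine dvd_trans ?_ (Nat.prod_primeFactors_dvd m)
    exact Finset.prod_dvd_prod_of_subset _ _ _ (erase_subset _ _)
  have hodd : Odd (∏ q ∈ S, q) := by
    refine Finset.prod_induction _ _ (fun a b ha hb => ha.mul hb) odd_one ?_
    intro q hq
    exact (hSp q hq).odd_of_ne_two (hS2 q hq)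
  have hcompS : ∀ n ∈ S.toList, Comp n := fun n hn =>
    Or.inl ⟨hSp n (mem_toList.1 hn), hS2 n (mem_toList.1 hn)⟩
  have hdvd : ∀ p, p.Prime → p ∣ m → p ≠ 2 → p ∣ ∏ q ∈ S, q := by
    intro p hp hpm hp2
    exact Finset.dvd_prod_of_mem _ (mem_erase.2 ⟨hp2, Nat.mem_primeFactors.2 ⟨hp, hpm, hm0⟩⟩)
  by_cases h4 : 4 ∣ m
  · -- four divides `m`
    have hcop : Nat.Coprime 4 (∏ q ∈ S, q) := by
      have : Nat.Coprime (2 ^ 2) (∏ q ∈ S, q) :=
        Nat.Coprime.pow_left 2 (Nat.coprime_two_left.2 hodd)
      exact this
    set M := 4 * ∏ q ∈ S, q with hM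
    have hMm : M ∣ m := Nat.Coprime.mul_dvd_of_dvd_of_dvd hcop h4 hSm
    obtain ⟨k, hk⟩ := hMm
    have hMz : NeZero M := ⟨by rintro h0; rw [h0, zero_mul] at hk; exact hm0 hk⟩
    have hkm : k * M = m := by rw [hk]; ring
    have hred : Red m M k := by
      refine red_exists k m M k rfl hkm ?_ fun _ => Dvd.intro _ rfl
      intro p hp hpm
      by_cases hp2 : p = 2
      · rw [hp2, hM]
        exact Dvd.dvd.mul_right (by norm_num) _
      · exact (hdvd p hp hpm hp2).mul_left _
    have h1 := tors_level (M := M) (4 :: S.toList) (by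
      intro n hn
      rcases List.mem_cons.1 hn with rfl | hn
      · exact Or.inr rfl
      · exact hcompS n hn) (by
      rw [List.pairwise_cons]
      refine ⟨?_, pairwise_toList S hSp⟩
      intro q hq
      exact Nat.Coprime.coprime_dvd_right (Finset.dvd_prod_of_mem _ (mem_toList.1 hq)) hcop)
      (by rw [List.prod_cons, prod_toList]) (by simp) (fun b : ZMod M => c (iota k b))
      (hc.comp_iota hkm)
    have h2 := TV_red hred hc
    refine ⟨h1.1.subset h2, (Set.ncard_le_ncard h2 h1.1).trans (h1.2.trans (le_of_eq ?_))⟩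
    have h3 : rk m = (4 :: S.toList).length := by
      unfold rk
      rw [List.length_cons, length_toList, hS, card_erase_of_mem (Nat.mem_primeFactors.2
        ⟨Nat.prime_two, dvd_trans (by norm_num) h4, hm0⟩)]
      have h5 : m.primeFactors.filter (fun q => q ≠ 2 ∨ 4 ∣ m) = m.primeFactors :=
        filter_true_of_mem fun q _ => Or.inr h4
      rw [h5]
      have h6 : 0 < m.primeFactors.card := card_pos.2 ⟨2, Nat.mem_primeFactors.2
        ⟨Nat.prime_two, dvd_trans (by norm_num) h4, hm0⟩⟩
      omega
    rw [h3]
  · have h3 : rk m = S.toList.length := by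
      unfold rk
      rw [length_toList, hS]
      congr 1
      ext q
      rw [mem_filter, mem_erase]
      simp only [h4, or_false]
      exact and_comm
    by_cases hSe : S = ∅
    · -- trivial level
      have h5 : m ∣ 2 := by
        have h6 : ∀ p, p.Prime → p ∣ m → p = 2 := by
          intro p hp hpm
          by_contra h7
          have : p ∈ S := mem_erase.2 ⟨h7, Nat.mem_primeFactors.2 ⟨hp, hpm, hm0⟩⟩
          rw [hSe] at this
          exact notMem_empty _ this
        have h8 := Nat.eq_prime_pow_of_unique_prime_dvd hm0 (fun {d} hd hdm => h6 d hd hdm)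
        have h9 : m.primeFactorsList.length < 2 := by
          by_contra h10
          apply h4
          rw [h8]
          exact pow_dvd_pow 2 (by omega : 2 ≤ m.primeFactorsList.length)
        rw [h8]
        exact pow_dvd_pow 2 (by omega : m.primeFactorsList.length ≤ 1)
      have h6 : ∀ a : ZMod m, c a = 0 := by
        intro a
        apply hc.half
        have h7 : ((2 : ℕ) : ZMod m) = 0 := by
          rw [ZMod.natCast_eq_zero_iff]
          exact h5
        rw [← two_mul]
        push_cast at h7
        rw [h7, zero_mul]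
      have h7 := TV_triv h6
      refine ⟨(Set.finite_singleton _).subset h7, ?_⟩
      refine (Set.ncard_le_ncard h7 (Set.finite_singleton _)).trans ?_
      rw [Set.ncard_singleton]
      exact Nat.one_le_two_pow
    · set M := ∏ q ∈ S, q with hM
      obtain ⟨k, hk⟩ := hSm
      have hMz : NeZero M := ⟨by rintro h0; rw [h0, zero_mul] at hk; exact hm0 hk⟩
      have hkm : k * M = m := by rw [hk]; ring
      have hred : Red m M k := by
        by_cases h2 : 2 ∣ m
        · obtain ⟨k', hk'⟩ : 2 ∣ k := by
            rw [hk] at h2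
            rcases (Nat.Prime.dvd_mul Nat.prime_two).1 h2 with h5 | h5
            · exfalso
              rw [Nat.odd_iff] at hodd
              omega
            · exact h5
          have hz : NeZero (2 * M) := ⟨Nat.mul_ne_zero two_ne_zero hMz.ne⟩
          have hk2 : k' * (2 * M) = m := by rw [← hkm, hk']; ring
          have h5 : Red m (2 * M) k' := by
            refine red_exists k' m (2 * M) k' rfl hk2 ?_ fun h => absurd h h4
            intro p hp hpm
            by_cases hp2 : p = 2
            · rw [hp2]
              exact Dvd.intro _ rfl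
            · exact (hdvd p hp hpm hp2).mul_left _
          have h6 : Red (2 * M) M 2 := H916K.red_double rfl hodd
          have h7 := Red.trans hk2 h5 h6
          rwa [mul_comm k' 2, ← hk'] at h7
        · refine red_exists k m M k rfl hkm ?_ fun h => absurd h h4
          intro p hp hpm
          exact hdvd p hp hpm (by rintro rfl; exact h2 hpm)
      have h1 := tors_level (M := M) S.toList hcompS (pairwise_toList S hSp)
        (by rw [prod_toList]) (by
          intro h0
          exact hSe (Finset.toList_eq_nil.1 h0)) (fun b : ZMod M => c (iota k b))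
        (hc.comp_iota hkm)
      have h2 := TV_red hred hc
      rw [h3]
      exact ⟨h1.1.subset h2, (Set.ncard_le_ncard h2 h1.1).trans h1.2⟩

end Pool.Agent.H547_h
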