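import Mathlib

/-!
# Functions on a product of unit groups with vanishing partial sums

`M` is a natural number, the elements of `ZMod M` are written as sums of multiples of `M / n`, for
`n` in a list of components.
-/

set_option autoImplicit false

namespace Pool.Agent.H547_h

open Finset

/-- a component: an odd prime number or four -/
def Comp (n : ℕ) : Prop := (n.Prime ∧ n ≠ 2) ∨ n = 4

/-- the units -/
def U (n : ℕ) : Finset ℕ := (range n).filter n.Coprime

lemma card_U (n : ℕ) : (U n).card = Nat.totient n := rfl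

/-- half of the units, without `1` and `-1` -/
def Hh (n : ℕ) : Finset ℕ := (U n).filter fun u => 1 < u ∧ 2 * u < n

lemma Comp.three_le {n : ℕ} (h : Comp n) : 3 ≤ n := by
  rcases h with ⟨h1, h2⟩ | h
  · have := h1.two_le
    omega
  · omega

lemma one_mem_U {n : ℕ} (h : 2 ≤ n) : 1 ∈ U n := by
  unfold U
  rw [mem_filter, mem_range]
  exact ⟨by omega, Nat.coprime_one_right n⟩

lemma pos_of_mem_U {n u : ℕ} (h : 2 ≤ n) (hu : u ∈ U n) : 0 < u := by
  unfold U at hu
  rw [mem_filter] at hu
  rcases Nat.eq_zero_or_pos u with h0 | h0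
  · rw [h0] at hu
    have := hu.2
    rw [Nat.coprime_zero_right] at this
    omega
  · exact h0

lemma lt_of_mem_U {n u : ℕ} (hu : u ∈ U n) : u < n := by
  unfold U at hu
  rw [mem_filter, mem_range] at hu
  exact hu.1

lemma sub_mem_U {n u : ℕ} (h : 2 ≤ n) (hu : u ∈ U n) : n - u ∈ U n := by
  have h1 := pos_of_mem_U h hu
  have h2 := lt_of_mem_U hu
  unfold U at hu ⊢
  rw [mem_filter, mem_range] at hu ⊢
  refine ⟨by omega, ?_⟩
  exact (Nat.coprime_self_sub_right h2.le).2 hu.2

lemma two_mul_ne {n u : ℕ} (h : 3 ≤ n) (hu : u ∈ U n) : 2 * u ≠ n := by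
  intro h0
  unfold U at hu
  rw [mem_filter] at hu
  have h1 := hu.2
  rw [← h0] at h1
  have h2 : u ∣ Nat.gcd (2 * u) u := Nat.dvd_gcd (Dvd.intro_left 2 rfl) dvd_rfl
  rw [h1] at h2
  have := Nat.le_of_dvd one_pos h2
  omega

lemma U_cases {n u : ℕ} (h : 3 ≤ n) (hu : u ∈ U n) :
    u = 1 ∨ u = n - 1 ∨ u ∈ Hh n ∨ n - u ∈ Hh n := by
  have h1 := pos_of_mem_U (by omega) hu
  have h2 := lt_of_mem_U hu
  have h3 := two_mul_ne h hu
  by_cases h4 : u = 1
  · exact Or.inl h4
  by_cases h5 : u = n - 1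
  · exact Or.inr (Or.inl h5)
  rcases lt_or_gt_of_ne h3 with h6 | h6
  · right; right; left
    unfold Hh
    rw [mem_filter]
    exact ⟨hu, by omega, h6⟩
  · right; right; right
    unfold Hh
    rw [mem_filter]
    exact ⟨sub_mem_U (by omega) hu, by omega, by omega⟩

lemma card_Hh {n : ℕ} (h : 3 ≤ n) : 2 * (Hh n).card + 2 ≤ Nat.totient n := by
  classical
  have h1 : 1 ∈ U n := one_mem_U (by omega)
  have h2 : n - 1 ∈ U n := sub_mem_U (by omega) h1
  have hinj : Set.InjOn (fun u => n - u) (Hh n : Set ℕ) := by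
    intro a ha b hb hab
    simp only [Hh, coe_filter, Set.mem_ofPred_eq] at ha hb
    simp only at hab
    omega
  have hc : ((Hh n).image fun u => n - u).card = (Hh n).card := card_image_of_injOn hinj
  have hd1 : Disjoint (Hh n) ((Hh n).image fun u => n - u) := by
    rw [disjoint_left]
    intro a ha ha'
    rw [mem_image] at ha'
    obtain ⟨b, hb, rfl⟩ := ha'
    simp only [Hh, mem_filter] at ha hb
    omega
  have hd2 : Disjoint (Hh n ∪ (Hh n).image fun u => n - u) ({1, n - 1} : Finset ℕ) := by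
    rw [disjoint_left]
    intro a ha ha'
    rw [mem_union, mem_image] at ha
    simp only [mem_insert, mem_singleton] at ha'
    rcases ha with ha | ⟨b, hb, rfl⟩
    · simp only [Hh, mem_filter] at ha
      omega
    · simp only [Hh, mem_filter] at hb
      have := lt_of_mem_U hb.1
      omega
  have hsub : (Hh n ∪ (Hh n).image fun u => n - u) ∪ ({1, n - 1} : Finset ℕ) ⊆ U n := by
    intro a ha
    rw [mem_union, mem_union, mem_image] at ha
    rcases ha with (ha | ⟨b, hb, rfl⟩) | ha
    · exact (mem_filter.1 ha).1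
    · exact sub_mem_U (by omega) (mem_filter.1 hb).1
    · simp only [mem_insert, mem_singleton] at ha
      rcases ha with rfl | rfl
      · exact h1
      · exact h2
  have h3 := card_le_card hsub
  rw [card_union_of_disjoint hd2, card_union_of_disjoint hd1, hc,
    card_pair (by omega : (1 : ℕ) ≠ n - 1), card_U] at h3
  omega

section inner

variable {M : ℕ}

/-- all coordinates are units -/
def EY (M : ℕ) : List ℕ → Set (ZMod M)
  | [] => {0}
  | n :: L => {z | ∃ u ∈ U n, ∃ w ∈ EY M L, z = ((u * (M / n) : ℕ) : ZMod M) + w}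

/-- all coordinates are units different from one -/
def EK (M : ℕ) : List ℕ → Set (ZMod M)
  | [] => {0}
  | n :: L => {z | ∃ u ∈ U n, u ≠ 1 ∧ ∃ w ∈ EK M L, z = ((u * (M / n) : ℕ) : ZMod M) + w}

/-- the generators; `true` is for odd functions -/
def EB (M : ℕ) : List ℕ → Bool → Set (ZMod M)
  | [], s => {z | s = false ∧ z = 0}
  | n :: L, s => {z | (∃ u ∈ Hh n, ∃ w ∈ EK M L, z = ((u * (M / n) : ℕ) : ZMod M) + w) ∨
      ∃ w ∈ EB M L (!s), z = ((1 * (M / n) : ℕ) : ZMod M) + w}

/-- the element with all coordinates one -/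
def one (M : ℕ) : List ℕ → ZMod M
  | [] => 0
  | n :: L => ((1 * (M / n) : ℕ) : ZMod M) + one M L

/-- the case in which there is an exceptional element -/
def ex : List ℕ → Bool → Bool
  | [], s => s
  | _ :: L, s => ex L (!s)

/-- all partial sums are zero -/
def RR {G : Type*} [AddCommGroup G] (M : ℕ) : List ℕ → (ZMod M → G) → Prop
  | [], _ => True
  | n :: L, F => (∀ w ∈ EY M L, ∑ u ∈ U n, F (((u * (M / n) : ℕ) : ZMod M) + w) = 0) ∧
      ∀ u ∈ U n, RR M L fun w => F (((u * (M / n) : ℕ) : ZMod M) + w)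

lemma EY_neg : ∀ (L : List ℕ), (∀ n ∈ L, Comp n ∧ n ∣ M) → ∀ w ∈ EY M L, -w ∈ EY M L := by
  intro L
  induction L with
  | nil =>
    intro _ w hw
    simp only [EY, Set.mem_singleton_iff] at hw ⊢
    rw [hw, neg_zero]
  | cons n L ih =>
    intro hL w hw
    obtain ⟨u, hu, w', hw', rfl⟩ := hw
    have hn := hL n (List.mem_cons_self)
    refine ⟨n - u, sub_mem_U (by have := hn.1.three_le; omega) hu, -w',
      ih (fun n' hn' => hL n' (List.mem_cons_of_mem _ hn')) w' hw', ?_⟩
    have h1 : (((n - u) * (M / n) : ℕ) : ZMod M) + ((u * (M / n) : ℕ) : ZMod M) = 0 := by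
      rw [← Nat.cast_add, ← add_mul, Nat.sub_add_cancel (lt_of_mem_U hu).le,
        Nat.mul_div_cancel' hn.2]
      simp
    linear_combination -h1

lemma EK_zero {G : Type*} [AddCommGroup G] : ∀ (L : List ℕ), (∀ n ∈ L, Comp n ∧ n ∣ M) →
    ∀ F : ZMod M → G, RR M L F → (∀ w ∈ EK M L, F w = 0) → ∀ w ∈ EY M L, F w = 0 := by
  intro L
  induction L with
  | nil =>
    intro _ F _ h w hw
    exact h w hw
  | cons n L ih =>
    intro hL F hR h w hw
    have hL' : ∀ n' ∈ L, Comp n' ∧ n' ∣ M := fun n' hn' => hL n' (List.mem_cons_of_mem _ hn')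
    have hn := (hL n (List.mem_cons_self)).1.three_le
    have h1 : ∀ u ∈ U n, u ≠ 1 → ∀ w ∈ EY M L, F (((u * (M / n) : ℕ) : ZMod M) + w) = 0 := by
      intro u hu hu1
      exact ih hL' _ (hR.2 u hu) fun w hw => h _ ⟨u, hu, hu1, w, hw, rfl⟩
    obtain ⟨u, hu, w', hw', rfl⟩ := hw
    by_cases hu1 : u = 1
    · have h2 := hR.1 w' hw'
      rw [← add_sum_erase _ _ (one_mem_U (by omega)), sum_eq_zero, add_zero] at h2
      · rw [hu1]
        exact h2
      · intro v hv
        exact h1 v (mem_of_mem_erase hv) (ne_of_mem_erase hv) w' hw'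
    · exact h1 u hu hu1 w' hw'

/-- The inner theorem. -/
theorem inner {G : Type*} [AddCommGroup G] : ∀ (L : List ℕ), (∀ n ∈ L, Comp n ∧ n ∣ M) →
    ∀ (s : Bool) (F : ZMod M → G), RR M L F →
      (∀ w ∈ EY M L, F (-w) = (if s then -1 else (1 : ℤ)) • F w) → (∀ w ∈ EB M L s, F w = 0) →
      (∀ w ∈ EY M L, F w ∈ AddSubgroup.zmultiples (F (one M L))) ∧
        (ex L s = true → (2 : ℤ) • F (one M L) = 0) ∧ (ex L s = false → F (one M L) = 0) := by
  intro L
  induction L with
  | nil =>
    intro _ s F _ hs h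
    refine ⟨?_, ?_, ?_⟩
    · intro w hw
      simp only [EY, Set.mem_singleton_iff] at hw
      rw [hw]
      exact AddSubgroup.mem_zmultiples _
    · intro h1
      simp only [ex] at h1
      subst h1
      have h2 := hs 0 rfl
      rw [neg_zero] at h2
      simp only [if_true, neg_smul, one_smul] at h2
      simp only [one]
      rw [two_smul]
      nth_rewrite 1 [h2]
      exact neg_add_cancel _
    · intro h1
      simp only [ex] at h1
      exact h _ ⟨h1, rfl⟩
  | cons n L ih =>
    intro hL s F hR hs h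
    have hL' : ∀ n' ∈ L, Comp n' ∧ n' ∣ M := fun n' hn' => hL n' (List.mem_cons_of_mem _ hn')
    have hn := (hL n (List.mem_cons_self)).1.three_le
    have hnM := (hL n (List.mem_cons_self)).2
    have hcast : ∀ u ∈ U n, (((n - u) * (M / n) : ℕ) : ZMod M) = - ((u * (M / n) : ℕ) : ZMod M) := by
      intro u hu
      have h1 : (((n - u) * (M / n) : ℕ) : ZMod M) + ((u * (M / n) : ℕ) : ZMod M) = 0 := by
        rw [← Nat.cast_add, ← add_mul, Nat.sub_add_cancel (lt_of_mem_U hu).le,
          Nat.mul_div_cancel' hnM]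
        simp
      linear_combination h1
    have hsym : ∀ u ∈ U n, ∀ w ∈ EY M L, F ((((n - u) * (M / n) : ℕ) : ZMod M) + -w) =
        (if s then -1 else (1 : ℤ)) • F (((u * (M / n) : ℕ) : ZMod M) + w) := by
      intro u hu w hw
      rw [← hs _ ⟨u, hu, w, hw, rfl⟩, hcast u hu]
      congr 1
      ring
    have h1 : ∀ u ∈ Hh n, ∀ w ∈ EY M L, F (((u * (M / n) : ℕ) : ZMod M) + w) = 0 := by
      intro u hu
      exact EK_zero L hL' _ (hR.2 u (mem_filter.1 hu).1) fun w hw => h _ (Or.inl ⟨u, hu, w, hw, rfl⟩)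
    have h2 : ∀ u ∈ U n, n - u ∈ Hh n → ∀ w ∈ EY M L, F (((u * (M / n) : ℕ) : ZMod M) + w) = 0 := by
      intro u hu hu2 w hw
      have h3 := hsym (n - u) (mem_filter.1 hu2).1 (-w) (EY_neg L hL' w hw)
      rw [Nat.sub_sub_self (lt_of_mem_U hu).le, neg_neg, h1 _ hu2 _ (EY_neg L hL' w hw),
        smul_zero] at h3
      exact h3
    have hone : (1 : ℕ) ∈ U n := one_mem_U (by omega)
    have hm1 : n - 1 ∈ U n := sub_mem_U (by omega) hone
    have h3 : ∀ w ∈ EY M L, F ((((n - 1) * (M / n) : ℕ) : ZMod M) + w) =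
        - F (((1 * (M / n) : ℕ) : ZMod M) + w) := by
      intro w hw
      have h4 := hR.1 w hw
      rw [← add_sum_erase _ _ hone, ← add_sum_erase _ _
        (mem_erase.2 ⟨by omega, hm1⟩ : n - 1 ∈ (U n).erase 1), sum_eq_zero, add_zero] at h4
      · exact (neg_eq_of_add_eq_zero_right h4).symm
      · intro v hv
        rw [mem_erase, mem_erase] at hv
        rcases U_cases hn hv.2.2 with h5 | h5 | h5 | h5
        · exact absurd h5 hv.2.1
        · exact absurd h5 hv.1
        · exact h1 v h5 w hw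
        · exact h2 v hv.2.2 h5 w hw
    have h4 : ∀ w ∈ EY M L, F (((1 * (M / n) : ℕ) : ZMod M) + -w) =
        (if (!s) then -1 else (1 : ℤ)) • F (((1 * (M / n) : ℕ) : ZMod M) + w) := by
      intro w hw
      have h5 := hsym 1 hone w hw
      rw [h3 (-w) (EY_neg L hL' w hw)] at h5
      rw [neg_eq_iff_eq_neg] at h5
      rw [h5]
      cases s <;> simp
    obtain ⟨g1, g2, g3⟩ := ih hL' (!s) _ (hR.2 1 hone) h4
      fun w hw => h _ (Or.inr ⟨w, hw, rfl⟩)
    refine ⟨?_, ?_, ?_⟩
    · intro z hz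
      obtain ⟨u, hu, w, hw, rfl⟩ := hz
      rcases U_cases hn hu with h5 | h5 | h5 | h5
      · rw [h5]
        exact g1 w hw
      · rw [h5, h3 w hw]
        exact neg_mem (g1 w hw)
      · rw [h1 u h5 w hw]
        exact zero_mem _
      · rw [h2 u hu h5 w hw]
        exact zero_mem _
    · intro h5
      exact g2 h5
    · intro h5
      exact g3 h5

end inner

end Pool.Agent.H547_h
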