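import Pool.Agent.H547_h.Base
import Pool.Agent.H916R2.Full

/-!
# Odd distributions which vanish on the generators
-/

set_option autoImplicit false

namespace Pool.Agent.H547_h

open Finset Pool.Agent.H916R2

section

variable {M : ℕ}

lemma comp_rel {Q : Type*} [AddCommGroup Q] {c : ZMod M → Q} (hc : OddDist c) {n : ℕ}
    (hn : Comp n) (hnM : n ∣ M) : ∃ α β : ℕ, ∀ z : ZMod M,
      ∑ u ∈ U n, c (((u * (M / n) : ℕ) : ZMod M) + z) = c ((α : ZMod M) * z) - c ((β : ZMod M) * z) := by
  rcases hn with ⟨hp, h2⟩ | rfl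
  · refine ⟨n, 1, fun z => ?_⟩
    have h1 := hc.dist n (M / n) hp (Nat.mul_div_cancel' hnM) z
    have h3 : U n = (range n).erase 0 := by
      ext u
      unfold U
      rw [mem_filter, mem_erase, mem_range]
      constructor
      · rintro ⟨h3, h4⟩
        refine ⟨?_, h3⟩
        rintro rfl
        rw [Nat.coprime_zero_right] at h4
        exact hp.one_lt.ne' h4
      · rintro ⟨h3, h4⟩
        exact ⟨h4, Nat.coprime_of_lt_prime h3 h4 hp⟩
    rw [h3]
    rw [← add_sum_erase _ _ (mem_range.2 hp.pos)] at h1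
    rw [← h1]
    simp only [Nat.cast_zero, zero_mul, add_zero, Nat.cast_one, one_mul]
    rw [add_sub_cancel_left]
    refine sum_congr rfl fun u _ => ?_
    congr 1
    push_cast
    ring
  · refine ⟨4, 2, fun z => ?_⟩
    obtain ⟨d, hd⟩ := hnM
    have hM4 : M / 4 = d := by rw [hd]; omega
    have hU : U 4 = {1, 3} := by decide
    have h2 : 2 * (2 * d) = M := by rw [hd]; ring
    have h1 := hc.dist 2 (2 * d) Nat.prime_two h2 (z + (d : ZMod M))
    have h3 := hc.dist 2 (2 * d) Nat.prime_two h2 (2 * z)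
    have h5 : ∀ f : ℕ → Q, ∑ i ∈ range 2, f i = f 0 + f 1 := by
      intro f
      rw [sum_range_succ, sum_range_one]
    rw [h5] at h1 h3
    rw [hU, sum_pair (by norm_num), hM4]
    have e1 : z + (d : ZMod M) + ((0 : ℕ) : ZMod M) * ((2 * d : ℕ) : ZMod M) =
        ((1 * d : ℕ) : ZMod M) + z := by push_cast; ring
    have e2 : z + (d : ZMod M) + ((1 : ℕ) : ZMod M) * ((2 * d : ℕ) : ZMod M) =
        ((3 * d : ℕ) : ZMod M) + z := by push_cast; ring
    have e3 : ((2 : ℕ) : ZMod M) * (z + (d : ZMod M)) =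
        2 * z + ((1 : ℕ) : ZMod M) * ((2 * d : ℕ) : ZMod M) := by push_cast; ring
    have e4 : 2 * z + ((0 : ℕ) : ZMod M) * ((2 * d : ℕ) : ZMod M) = ((2 : ℕ) : ZMod M) * z := by
      push_cast; ring
    have e5 : ((2 : ℕ) : ZMod M) * (2 * z) = ((4 : ℕ) : ZMod M) * z := by push_cast; ring
    rw [e1, e2, e3] at h1
    rw [e4, e5] at h3
    rw [h1, ← h3, add_sub_cancel_left]

lemma EY_kill : ∀ (L : List ℕ) (P : ℕ), (∀ n ∈ L, n ∣ M ∧ n ∣ P) → ∀ w ∈ EY M L,
    (P : ZMod M) * w = 0 := by
  intro L
  induction L with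
  | nil =>
    intro P _ w hw
    simp only [EY, Set.mem_singleton_iff] at hw
    rw [hw, mul_zero]
  | cons n L ih =>
    intro P h w hw
    obtain ⟨u, _, w', hw', rfl⟩ := hw
    have h1 := ih P (fun n' hn' => h n' (List.mem_cons_of_mem _ hn')) w' hw'
    obtain ⟨h2, j, rfl⟩ := h n (List.mem_cons_self)
    have h3 : ((n * (M / n) : ℕ) : ZMod M) = 0 := by
      rw [Nat.mul_div_cancel' h2]
      simp
    rw [mul_add, h1, add_zero]
    push_cast at h3 ⊢
    linear_combination (j : ZMod M) * u * h3

lemma RR_c {Q G : Type*} [AddCommGroup Q] [AddCommGroup G] {c : ZMod M → Q} (hc : OddDist c)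
    (φ : Q →+ G) : ∀ (L : List ℕ) (P : ℕ), (∀ n ∈ L, Comp n ∧ n ∣ M ∧ n ∣ P) →
      L.Pairwise Nat.Coprime →
      (∀ n ∈ L, ∀ w : ZMod M, ((P / n : ℕ) : ZMod M) * w = 0 → φ (c w) = 0) → ∀ t : ZMod M,
        (∀ n ∈ L, ((P / n : ℕ) : ZMod M) * t = 0) → RR M L fun w => φ (c (t + w)) := by
  intro L
  induction L with
  | nil =>
    intro P _ _ _ t _
    trivial
  | cons n L ih =>
    intro P hL hpw hG t ht
    rw [List.pairwise_cons] at hpw
    have hL' : ∀ n' ∈ L, Comp n' ∧ n' ∣ M ∧ n' ∣ P := fun n' hn' =>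
      hL n' (List.mem_cons_of_mem _ hn')
    obtain ⟨hn, hnM, hnP⟩ := hL n (List.mem_cons_self)
    have hdiv : ∀ n' ∈ L, n' ∣ P / n ∧ n ∣ P / n' := by
      intro n' hn'
      have h1 := Nat.Coprime.mul_dvd_of_dvd_of_dvd (hpw.1 n' hn') hnP (hL' n' hn').2.2
      constructor
      · exact (Nat.dvd_div_iff_mul_dvd hnP).2 h1
      · rw [mul_comm] at h1
        exact (Nat.dvd_div_iff_mul_dvd (hL' n' hn').2.2).2 h1
    refine ⟨?_, ?_⟩
    · intro w hw
      obtain ⟨α, β, h1⟩ := comp_rel hc hn hnM
      have h2 := h1 (t + w)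
      have h3 : ((P / n : ℕ) : ZMod M) * (t + w) = 0 := by
        rw [mul_add, ht n (List.mem_cons_self), zero_add]
        exact EY_kill L (P / n) (fun n' hn' => ⟨(hL' n' hn').2.1, (hdiv n' hn').1⟩) w hw
      have h4 : ∀ α : ℕ, φ (c ((α : ZMod M) * (t + w))) = 0 := by
        intro α
        refine hG n (List.mem_cons_self) _ ?_
        linear_combination (α : ZMod M) * h3
      have h5 : ∑ u ∈ U n, φ (c (t + (((u * (M / n) : ℕ) : ZMod M) + w))) =
          φ (∑ u ∈ U n, c (((u * (M / n) : ℕ) : ZMod M) + (t + w))) := by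
        rw [map_sum]
        refine sum_congr rfl fun u _ => ?_
        congr 2
        ring
      rw [h5, h2, map_sub, h4, h4, sub_zero]
    · intro u hu
      have h1 := ih P hL' hpw.2 (fun n' hn' => hG n' (List.mem_cons_of_mem _ hn'))
        (t + ((u * (M / n) : ℕ) : ZMod M)) (by
          intro n' hn'
          rw [mul_add, ht n' (List.mem_cons_of_mem _ hn'), zero_add]
          obtain ⟨j, hj⟩ := (hdiv n' hn').2
          rw [hj]
          have h3 : ((n * (M / n) : ℕ) : ZMod M) = 0 := by
            rw [Nat.mul_div_cancel' hnM]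
            simp
          push_cast at h3 ⊢
          linear_combination (j : ZMod M) * u * h3)
      simp only [add_assoc] at h1
      exact h1

lemma exists_mul_of_kill [NeZero M] {n : ℕ} (hnM : n ∣ M) {w : ZMod M} (hw : (n : ZMod M) * w = 0) :
    ∃ j < n, w = ((j * (M / n) : ℕ) : ZMod M) := by
  obtain ⟨d, hd⟩ := hnM
  have hM := NeZero.pos M
  have hn0 : 0 < n := Nat.pos_of_ne_zero (by rintro rfl; simp at hd; omega)
  have hd0 : 0 < d := Nat.pos_of_ne_zero (by rintro rfl; simp at hd; omega)
  have h1 : M ∣ n * w.val := by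
    rw [← ZMod.natCast_eq_zero_iff]
    push_cast
    rw [ZMod.natCast_zmod_val]
    exact hw
  have h2 : d ∣ w.val := by
    have h3 : n * d ∣ n * w.val := by rw [← hd]; exact h1
    exact Nat.dvd_of_mul_dvd_mul_left hn0 h3
  obtain ⟨j, hj⟩ := h2
  have hMn : M / n = d := by rw [hd]; exact Nat.mul_div_cancel_left _ hn0
  refine ⟨j, ?_, ?_⟩
  · have := ZMod.val_lt w
    rw [hj] at this
    have h4 : d * j < d * n := by rw [mul_comm d n, ← hd]; exact this
    exact Nat.lt_of_mul_lt_mul_left h4
  · rw [hMn, mul_comm j d, ← hj, ZMod.natCast_zmod_val]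

lemma tri [NeZero M] : ∀ (L : List ℕ), (∀ n ∈ L, Comp n ∧ n ∣ M) → L.Pairwise Nat.Coprime →
    ∀ w : ZMod M, ((L.prod : ℕ) : ZMod M) * w = 0 →
      w ∈ EY M L ∨ ∃ n ∈ L, ∃ z : ZMod M, (((L.erase n).prod : ℕ) : ZMod M) * z = 0 ∧
        (w = z ∨ (4 ∣ M ∧ n = 4 ∧ w = z + ((M / 2 : ℕ) : ZMod M))) := by
  intro L
  induction L with
  | nil =>
    intro _ _ w hw
    left
    simpa [EY] using hw
  | cons n L ih =>
    intro hL hpw w hw
    rw [List.pairwise_cons] at hpw
    have hL' : ∀ n' ∈ L, Comp n' ∧ n' ∣ M := fun n' hn' => hL n' (List.mem_cons_of_mem _ hn')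
    obtain ⟨hn, hnM⟩ := hL n (List.mem_cons_self)
    have hcop : Nat.Coprime n L.prod := Nat.coprime_list_prod_right_iff.2 hpw.1
    have hbez : ∀ N : ℕ, Nat.Coprime n N → (n : ZMod M) * ((Nat.gcdA n N : ℤ) : ZMod M) +
        (N : ZMod M) * ((Nat.gcdB n N : ℤ) : ZMod M) = 1 := by
      intro N hN
      have h1 := Nat.gcd_eq_gcd_ab n N
      rw [hN] at h1
      have := congrArg (fun z : ℤ => (z : ZMod M)) h1
      push_cast at this
      exact this.symm
    have hbez2 := hbez L.prod hcop
    set A : ZMod M := ((Nat.gcdA n L.prod : ℤ) : ZMod M)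
    set B : ZMod M := ((Nat.gcdB n L.prod : ℤ) : ZMod M)
    rw [List.prod_cons, Nat.cast_mul] at hw
    set w' : ZMod M := (n : ZMod M) * A * w with hw'
    have h1 : ((L.prod : ℕ) : ZMod M) * w' = 0 := by
      rw [hw']
      linear_combination A * hw
    have h2 : (n : ZMod M) * (((L.prod : ℕ) : ZMod M) * B * w) = 0 := by
      linear_combination B * hw
    obtain ⟨j, hj, h3⟩ := exists_mul_of_kill hnM h2
    have h4 : w = ((j * (M / n) : ℕ) : ZMod M) + w' := by
      rw [← h3, hw']
      linear_combination -w * hbez2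
    have herase : (n :: L).erase n = L := List.erase_cons_head ..
    by_cases hj0 : j = 0
    · right
      refine ⟨n, List.mem_cons_self, w', ?_, Or.inl ?_⟩
      · rw [herase]; exact h1
      · rw [h4, hj0]; simp
    by_cases hjU : j ∈ U n
    · rcases ih hL' hpw.2 w' h1 with h5 | ⟨n', hn', z, hz, h5⟩
      · left
        exact ⟨j, hjU, w', h5, h4⟩
      · right
        have hnn : n' ≠ n := by
          rintro rfl
          have h6 := hpw.1 n' hn'
          rw [Nat.coprime_self] at h6
          have := hn.three_le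
          omega
        refine ⟨n', List.mem_cons_of_mem _ hn', ((j * (M / n) : ℕ) : ZMod M) + z, ?_, ?_⟩
        · rw [List.erase_cons_tail (by simpa using Ne.symm hnn), List.prod_cons, mul_add]
          have h6 : ((n * (M / n) : ℕ) : ZMod M) = 0 := by
            rw [Nat.mul_div_cancel' hnM]
            simp
          rw [Nat.cast_mul] at h6
          rw [Nat.cast_mul, Nat.cast_mul]
          linear_combination (((L.erase n').prod : ℕ) : ZMod M) * j * h6 + (n : ZMod M) * hz
        · rcases h5 with h5 | ⟨h50, h5, h6⟩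
          · left
            rw [h4, h5]
          · right
            refine ⟨h50, h5, ?_⟩
            rw [h4, h6]
            ring
    · -- `n = 4` and `j = 2`
      rcases hn with ⟨hp, _⟩ | rfl
      · exfalso
        apply hjU
        unfold U
        rw [mem_filter, mem_range]
        exact ⟨hj, Nat.coprime_of_lt_prime hj0 hj hp⟩
      · have hj2 : j = 2 := by
          unfold U at hjU
          rw [mem_filter, mem_range] at hjU
          interval_cases j
          · exact absurd rfl hj0
          · exact absurd ⟨hj, by decide⟩ hjU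
          · rfl
          · exact absurd ⟨hj, by decide⟩ hjU
        right
        refine ⟨4, List.mem_cons_self, w', ?_, Or.inr ⟨hnM, rfl, ?_⟩⟩
        · rw [herase]; exact h1
        · rw [h4, hj2]
          have : 2 * (M / 4) = M / 2 := by
            obtain ⟨d, hd⟩ := hnM
            omega
          rw [this]
          ring

open scoped Classical in
/-- The outer theorem. -/
theorem outer [NeZero M] {Q : Type*} [AddCommGroup Q] {c : ZMod M → Q} (hc : OddDist c)
    (L0 : List ℕ) (hL0 : ∀ n ∈ L0, Comp n ∧ n ∣ M) (hpw : L0.Pairwise Nat.Coprime)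
    (hB : ∀ b ∈ BB M L0 true, c b = 0) : ∀ (k : ℕ) (L : List ℕ), L.length = k → L.Sublist L0 →
      (∀ w : ZMod M, ((L.prod : ℕ) : ZMod M) * w = 0 →
        c w ∈ AddSubgroup.closure ((fun T => c (one M T)) ''
          {T | T ∈ (EE0 L0 true).erase [] ∧ T.Sublist L})) ∧
      (L ∈ (EE0 L0 true).erase [] → (2 : ℤ) • c (one M L) ∈
        AddSubgroup.closure ((fun T => c (one M T)) ''
          {T | T ∈ (EE0 L0 true).erase [] ∧ T.length < L.length})) := by
  intro k
  induction k using Nat.strong_induction_on with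
  | _ k ih =>
  intro L hLk hLs
  have hLL : ∀ n ∈ L, Comp n ∧ n ∣ M := fun n hn => hL0 n (hLs.subset hn)
  have hLpw : L.Pairwise Nat.Coprime := hpw.sublist hLs
  set E := (EE0 L0 true).erase [] with hE
  let S1 : Set (List ℕ) := {T | T ∈ E ∧ T.Sublist L ∧ T.length < L.length}
  let G : AddSubgroup Q := AddSubgroup.closure ((fun T => c (one M T)) '' S1)
  let φ : Q →+ Q ⧸ G := QuotientAddGroup.mk' G
  have hφ : ∀ q, φ q = 0 ↔ q ∈ G := fun q => QuotientAddGroup.eq_zero_iff q
  have hG : ∀ n ∈ L, ∀ w : ZMod M, (((L.erase n).prod : ℕ) : ZMod M) * w = 0 → c w ∈ G := by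
    intro n hn w hw
    have hlen : (L.erase n).length + 1 = L.length := by
      rw [List.length_erase_of_mem hn]
      have := List.length_pos_of_mem hn
      omega
    have h1 := (ih (L.erase n).length (by omega) (L.erase n) rfl
      (List.erase_sublist.trans hLs)).1 w hw
    refine AddSubgroup.closure_mono (Set.image_mono ?_) h1
    rintro T ⟨hT1, hT2⟩
    exact ⟨hT1, hT2.trans List.erase_sublist, by have := hT2.length_le; omega⟩
  have hR : RR M L fun w => φ (c w) := by
    have h1 := RR_c hc φ L L.prod (fun n hn => ⟨(hLL n hn).1, (hLL n hn).2, List.dvd_prod hn⟩)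
      hLpw (by
        intro n hn w hw
        rw [hφ]
        refine hG n hn w ?_
        have h2 := List.prod_erase hn
        have h3 := (hLL n hn).1.three_le
        rw [← h2, Nat.mul_div_cancel_left _ (by omega)] at hw
        exact hw) 0 (by
        intro n _
        rw [mul_zero])
    simp only [zero_add] at h1
    exact h1
  have hin := inner L hLL true (fun w => φ (c w)) hR (by
    intro w _
    simp only [if_true, neg_smul, one_smul]
    rw [hc.neg, map_neg]) (by
    intro w hw
    rw [hB w (EB_sub hLs true hw), map_zero])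
  obtain ⟨g1, g2, g3⟩ := hin
  have hGle : G ≤ AddSubgroup.closure ((fun T => c (one M T)) '' {T | T ∈ E ∧ T.Sublist L}) :=
    AddSubgroup.closure_mono (Set.image_mono fun T hT => ⟨hT.1, hT.2.1⟩)
  refine ⟨?_, ?_⟩
  · intro w hw
    rcases tri L hLL hLpw w hw with hY | ⟨n, hn, z, hz, h1⟩
    · by_cases hLE : L ∈ E
      · obtain ⟨j, hj⟩ := AddSubgroup.mem_zmultiples_iff.1 (g1 w hY)
        have h2 : c w - j • c (one M L) ∈ G := by
          rw [← hφ, map_sub, map_zsmul, hj, sub_self]
        have h3 : c (one M L) ∈ AddSubgroup.closure ((fun T => c (one M T)) ''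
            {T | T ∈ E ∧ T.Sublist L}) :=
          AddSubgroup.subset_closure ⟨L, ⟨hLE, List.Sublist.refl L⟩, rfl⟩
        have h4 := add_mem (hGle h2) (zsmul_mem h3 j)
        rwa [sub_add_cancel] at h4
      · by_cases hL1 : L = []
        · subst hL1
          simp only [EY, Set.mem_singleton_iff] at hY
          rw [hY, hc.half 0 (by simp)]
          exact zero_mem _
        · have hex : ex L true = false := by
            by_contra h2
            rw [Bool.not_eq_false] at h2
            exact hLE (mem_erase.2 ⟨hL1, mem_EE0.2 ⟨hLs, h2⟩⟩)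
          have h2 := g1 w hY
          rw [g3 hex, AddSubgroup.zmultiples_zero_eq_bot, AddSubgroup.mem_bot, hφ] at h2
          exact hGle h2
    · rcases h1 with h1 | ⟨h4M, _, h1⟩
      · rw [h1]
        exact hGle (hG n hn z hz)
      · -- the relation at two
        obtain ⟨d, hd⟩ := h4M
        have h2 : 2 * (2 * d) = M := by rw [hd]; ring
        have hM2 : M / 2 = 2 * d := by omega
        have h3 := hc.dist 2 (2 * d) Nat.prime_two h2 z
        rw [sum_range_succ, sum_range_one, Nat.cast_zero, zero_mul, add_zero, Nat.cast_one,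
          one_mul] at h3
        have h4 : c w = c (((2 : ℕ) : ZMod M) * z) - c z := by
          rw [← h3, h1, hM2, add_sub_cancel_left]
        rw [h4]
        refine hGle (sub_mem (hG n hn _ ?_) (hG n hn z hz))
        linear_combination ((2 : ℕ) : ZMod M) * hz
  · intro hLE
    have hLE' := hLE
    rw [hE, mem_erase, mem_EE0] at hLE'
    have h1 := g2 hLE'.2.2
    rw [← map_zsmul, hφ] at h1
    have hGle2 : G ≤ AddSubgroup.closure ((fun T => c (one M T)) ''
        {T | T ∈ E ∧ T.length < L.length}) :=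
      AddSubgroup.closure_mono (Set.image_mono fun T hT => ⟨hT.1, hT.2.2⟩)
    exact hGle2 h1

end

end Pool.Agent.H547_h
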