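import Pool.Agent.H547_h.Outer

/-!
# The number of the values of relations under an odd distribution
-/

set_option autoImplicit false

namespace Pool.Agent.H547_h

open Finset Pool.Agent.H916R2

open scoped Classical in
/-- If twice each generator is a combination of the lower ones, all combinations are sums over
subsets. -/
lemma closure_sub {ι Q : Type*} [AddCommGroup Q] (g : ι → Q) (rk : ι → ℕ) (S : Finset ι) :
    (∀ i ∈ S, (2 : ℤ) • g i ∈ AddSubgroup.closure (g '' {j | j ∈ S ∧ rk j < rk i})) →
      ∀ x ∈ AddSubgroup.closure (g '' {j | j ∈ S}), ∃ J ∈ S.powerset, x = ∑ j ∈ J, g j := by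
  induction S using Finset.induction_on_max_value rk with
  | empty =>
    intro _ x hx
    have : (g '' {j | j ∈ (∅ : Finset ι)}) = ∅ := by simp
    rw [this, AddSubgroup.closure_empty, AddSubgroup.mem_bot] at hx
    exact ⟨∅, by simp, by rw [hx]; simp⟩
  | insert a s ha hmax ih =>
    intro h x hx
    have hs : ∀ i ∈ s, (2 : ℤ) • g i ∈ AddSubgroup.closure (g '' {j | j ∈ s ∧ rk j < rk i}) := by
      intro i hi
      refine AddSubgroup.closure_mono (Set.image_mono ?_) (h i (mem_insert_of_mem hi))
      rintro j ⟨hj1, hj2⟩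
      rcases mem_insert.1 hj1 with rfl | hj3
      · exact absurd (hmax i hi) (by omega)
      · exact ⟨hj3, hj2⟩
    have ha2 : (2 : ℤ) • g a ∈ AddSubgroup.closure (g '' {j | j ∈ s}) := by
      refine AddSubgroup.closure_mono (Set.image_mono ?_) (h a (mem_insert_self _ _))
      rintro j ⟨hj1, hj2⟩
      rcases mem_insert.1 hj1 with rfl | hj3
      · omega
      · exact hj3
    have himg : g '' {j | j ∈ insert a s} = {g a} ∪ g '' {j | j ∈ s} := by
      ext y
      simp only [Set.mem_image, Set.mem_union, Set.mem_singleton_iff]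
      constructor
      · rintro ⟨j, hj, rfl⟩
        rcases mem_insert.1 hj with rfl | hj
        · exact Or.inl rfl
        · exact Or.inr ⟨j, hj, rfl⟩
      · rintro (rfl | ⟨j, hj, rfl⟩)
        · exact ⟨a, mem_insert_self _ _, rfl⟩
        · exact ⟨j, mem_insert_of_mem hj, rfl⟩
    rw [himg, AddSubgroup.closure_union, AddSubgroup.mem_sup] at hx
    obtain ⟨y, hy, z, hz, rfl⟩ := hx
    obtain ⟨k, rfl⟩ := AddSubgroup.mem_closure_singleton.1 hy
    obtain ⟨q, r, hr, hk⟩ : ∃ q r : ℤ, (r = 0 ∨ r = 1) ∧ k = r + q * 2 :=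
      ⟨k / 2, k % 2, Int.emod_two_eq_zero_or_one k, by omega⟩
    have h1 : q • ((2 : ℤ) • g a) + z ∈ AddSubgroup.closure (g '' {j | j ∈ s}) :=
      add_mem (zsmul_mem ha2 q) hz
    obtain ⟨J, hJ, h2⟩ := ih hs _ h1
    rw [mem_powerset] at hJ
    have h3 : k • g a + z = r • g a + ∑ j ∈ J, g j := by
      rw [← h2, hk, add_smul, mul_smul, add_assoc]
    rcases hr with rfl | rfl
    · refine ⟨J, mem_powerset.2 (hJ.trans (subset_insert _ _)), ?_⟩
      rw [h3, zero_smul, zero_add]
    · refine ⟨insert a J, mem_powerset.2 (insert_subset_insert _ hJ), ?_⟩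
      rw [h3, one_smul, sum_insert fun h4 => ha (hJ h4)]

section

variable {M : ℕ} [NeZero M]

open scoped Classical in
/-- An odd distribution which vanishes on the generators takes its values in a small group. -/
theorem range_sub {Q : Type*} [AddCommGroup Q] {c : ZMod M → Q} (hc : OddDist c)
    (L0 : List ℕ) (hL0 : ∀ n ∈ L0, Comp n) (hpw : L0.Pairwise Nat.Coprime) (hprod : L0.prod = M)
    (hB : ∀ b ∈ BB M L0 true, c b = 0) :
    (∀ w, c w ∈ AddSubgroup.closure ((fun T => c (one M T)) '' {T | T ∈ (EE0 L0 true).erase []})) ∧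
    ∀ x ∈ AddSubgroup.closure ((fun T => c (one M T)) '' {T | T ∈ (EE0 L0 true).erase []}),
      ∃ J ∈ ((EE0 L0 true).erase []).powerset, x = ∑ T ∈ J, c (one M T) := by
  have hL : ∀ n ∈ L0, Comp n ∧ n ∣ M := fun n hn => ⟨hL0 n hn, by
    rw [← hprod]; exact List.dvd_prod hn⟩
  have h1 := outer hc L0 hL hpw hB
  refine ⟨fun w => ?_, ?_⟩
  · have h2 := (h1 L0.length L0 rfl (List.Sublist.refl _)).1 w (by
      rw [hprod]; simp)
    exact AddSubgroup.closure_mono (Set.image_mono fun T hT => hT.1) h2
  · refine closure_sub _ List.length _ ?_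
    intro L hL
    exact (h1 L.length L rfl (mem_EE0.1 (mem_of_mem_erase hL)).1).2 hL

lemma card_E {L0 : List ℕ} (hne : L0 ≠ []) :
    open scoped Classical in ((EE0 L0 true).erase []).card ≤ 2 ^ (L0.length - 1) - 1 := by
  classical
  obtain ⟨n, L, rfl⟩ := List.exists_cons_of_ne_nil hne
  rw [card_erase_of_mem (mem_EE0.2 ⟨List.nil_sublist _, rfl⟩)]
  have := card_EE0 (n := n) (L0 := L) true
  simp only [List.length_cons, Nat.add_sub_cancel]
  omega

/-- The generators are independent. -/
theorem indep_B (L0 : List ℕ) (hL0 : ∀ n ∈ L0, Comp n) (hpw : L0.Pairwise Nat.Coprime)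
    (hprod : L0.prod = M) (hne : L0 ≠ []) (y : ZMod M → ℤ) (hy : ∀ a, y a ≠ 0 → a ∈ BB M L0 true)
    (hRel : Rel y) : y = 0 := by
  classical
  have hM3 : 3 ≤ M := by
    obtain ⟨n, L, rfl⟩ := List.exists_cons_of_ne_nil hne
    have h1 := (hL0 n List.mem_cons_self).three_le
    have h2 : n ∣ M := by rw [← hprod]; exact List.dvd_prod List.mem_cons_self
    exact h1.trans (Nat.le_of_dvd (NeZero.pos M) h2)
  have hcard : 2 * (BB M L0 true).card ≤ Nat.totient M := by
    obtain ⟨n, L, rfl⟩ := List.exists_cons_of_ne_nil hne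
    have h3 : ∀ n' ∈ n :: L, 3 ≤ n' := fun n' hn' => (hL0 n' hn').three_le
    rw [← hprod, ← gg_eq _ hpw]
    exact (Nat.mul_le_mul_left _ (card_BB _ h3 true)).trans (two_bb h3 true)
  have hB0 : ∀ b ∈ BB M L0 true, (fun a : ZMod M => (y a : ℂ)) b = 0 := by
    apply indep (XO M) _ (BB M L0 true) _ _ (fun a : ZMod M => (y a : ℂ)) _
    · intro χ hχ
      unfold XO at hχ
      simp only [mem_filter, mem_univ, true_and] at hχ
      exact hχ
    · have := card_XO hM3
      omega
    · intro α hα a
      have hF : OddDist (fun a : ZMod M => ∑ χ ∈ XO M, α χ * SS χ a) := by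
        constructor
        · intro a
          simp only [SS_neg, mul_neg, sum_neg_distrib]
        · intro a ha
          apply sum_eq_zero
          intro χ _
          have h1 : -a = a := neg_eq_of_add_eq_zero_right ha
          have h2 := SS_neg χ a
          rw [h1] at h2
          have h3 : SS χ a = 0 := by
            have : 2 * SS χ a = 0 := by linear_combination h2
            simpa using this
          rw [h3, mul_zero]
        · intro p d hp hpd a
          rw [sum_comm]
          refine sum_congr rfl fun χ _ => ?_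
          rw [← mul_sum]
          congr 1
          exact SS_dist χ hpd a
      obtain ⟨h1, h2⟩ := range_sub hF L0 hL0 hpw hprod hα
      -- the group is finite, so zero
      set Gp := AddSubgroup.closure ((fun T => (fun a : ZMod M => ∑ χ ∈ XO M, α χ * SS χ a)
        (one M T)) '' {T | T ∈ (EE0 L0 true).erase []}) with hGp
      have hfin : (Gp : Set ℂ).Finite := by
        refine ((((EE0 L0 true).erase []).powerset.image fun J => ∑ T ∈ J,
          (fun a : ZMod M => ∑ χ ∈ XO M, α χ * SS χ a) (one M T)).finite_toSet).subset ?_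
        intro x hx
        obtain ⟨J, hJ, h3⟩ := h2 x hx
        rw [mem_coe, mem_image]
        exact ⟨J, hJ, h3.symm⟩
      by_contra hne0
      have h4 : Set.Infinite (Gp : Set ℂ) := by
        refine Set.infinite_of_injective_forall_mem
          (f := fun k : ℕ => k • (∑ χ ∈ XO M, α χ * SS χ a)) ?_ ?_
        · intro i j hij
          simp only [nsmul_eq_mul] at hij
          have := mul_right_cancel₀ hne0 hij
          exact_mod_cast this
        · intro k
          exact nsmul_mem (h1 a) k
      exact h4 hfin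
    · intro χ hχ
      have h1 : ∑ b ∈ BB M L0 true, (y b : ℂ) * SS χ b = ∑ a, (y a : ℂ) * SS χ a := by
        apply sum_subset (subset_univ _)
        intro a _ ha
        by_cases hya : y a = 0
        · rw [hya]; simp
        · exact absurd (hy a hya) ha
      rw [h1]
      unfold SS
      have h2 : ∑ a, (y a : ℂ) * ∑ t : (ZMod M)ˣ, χ t * (saw ((t : ZMod M) * a) : ℂ) =
          ∑ t : (ZMod M)ˣ, χ t * ((∑ a, y a * saw ((t : ZMod M) * a) : ℤ) : ℂ) := by
        simp only [mul_sum, Int.cast_sum, Int.cast_mul]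
        rw [sum_comm]
        refine sum_congr rfl fun t _ => sum_congr rfl fun a _ => ?_
        ring
      rw [h2]
      apply sum_eq_zero
      intro t _
      rw [hRel t]; simp
  funext a
  by_contra hya
  have := hB0 a (hy a hya)
  simp only [Int.cast_eq_zero] at this
  exact hya this

/-- the values of the relations -/
def TV {m : ℕ} [NeZero m] {Q : Type} [AddCommGroup Q] (c : ZMod m → Q) : Set Q :=
  {q | ∃ x : ZMod m → ℤ, Rel x ∧ ∑ a, x a • c a = q}

/-- The theorem for a squarefree level (or four times an odd squarefree number). -/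
theorem tors_level (L0 : List ℕ) (hL0 : ∀ n ∈ L0, Comp n) (hpw : L0.Pairwise Nat.Coprime)
    (hprod : L0.prod = M) (hne : L0 ≠ []) {Q : Type} [AddCommGroup Q] (c : ZMod M → Q)
    (hc : OddDist c) : (TV c).Finite ∧ (TV c).ncard ≤ 2 ^ (2 ^ (L0.length - 1) - 1) := by
  classical
  let c' : ZMod M → Q × ((ZMod M)ˣ → ℤ) := fun a => (c a, fun t => saw ((t : ZMod M) * a))
  have hc' : OddDist c' := by
    constructor
    · intro a
      refine Prod.ext ?_ ?_
      · simp [c', hc.neg]
      · funext t
        simp only [c', Prod.snd_neg, Pi.neg_apply, mul_neg, saw_neg]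
    · intro a ha
      refine Prod.ext ?_ ?_
      · exact hc.half a ha
      · funext t
        simp only [c', Prod.snd_zero, Pi.zero_apply]
        apply saw_half
        rw [← mul_add, ha, mul_zero]
    · intro p d hp hpd a
      refine Prod.ext ?_ ?_
      · rw [Prod.fst_sum]
        exact hc.dist p d hp hpd a
      · rw [Prod.snd_sum]
        funext t
        simp only [c', Finset.sum_apply]
        exact saw_dist_unit hpd t a
  let Φ : (ZMod M → ℤ) →+ Q × ((ZMod M)ˣ → ℤ) :=
    { toFun := fun y => ∑ a, y a • c' a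
      map_zero' := by simp
      map_add' := by
        intro y z
        simp only [Pi.add_apply, add_smul, sum_add_distrib] }
  let T : AddSubgroup (ZMod M → ℤ) :=
    { carrier := {y | ∀ a, y a ≠ 0 → a ∈ BB M L0 true}
      add_mem' := by
        intro y z hy hz a ha
        by_cases h1 : y a = 0
        · by_cases h2 : z a = 0
          · exact absurd (by simp [h1, h2]) ha
          · exact hz a h2
        · exact hy a h1
      zero_mem' := by intro a ha; exact absurd rfl ha
      neg_mem' := by
        intro y hy a ha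
        apply hy a
        simpa using ha }
  let S := T.map Φ
  have hsingle : ∀ a : ZMod M, a ∈ BB M L0 true → c' a ∈ S := by
    intro a ha
    refine ⟨Pi.single a 1, ?_, ?_⟩
    · intro b hb
      by_cases hba : b = a
      · rw [hba]; exact ha
      · rw [Pi.single_eq_of_ne hba] at hb; exact absurd rfl hb
    · change ∑ b, (Pi.single a (1 : ℤ) : ZMod M → ℤ) b • c' b = c' a
      rw [Finset.sum_eq_single a]
      · simp
      · intro b _ hb; rw [Pi.single_eq_of_ne hb, zero_smul]
      · intro h; exact absurd (mem_univ a) h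
  have hΦ2 : ∀ (y : ZMod M → ℤ), (Φ y).2 = fun t : (ZMod M)ˣ => ∑ a, y a * saw ((t : ZMod M) * a) := by
    intro y
    change (∑ a, y a • c' a).2 = _
    rw [Prod.snd_sum]
    funext t
    rw [Finset.sum_apply]
    simp [c']
  have hΦ1 : ∀ (y : ZMod M → ℤ), (Φ y).1 = ∑ a, y a • c a := by
    intro y
    change (∑ a, y a • c' a).1 = _
    rw [Prod.fst_sum]
    simp [c']
  let π : Q × ((ZMod M)ˣ → ℤ) →+ (Q × ((ZMod M)ˣ → ℤ)) ⧸ S := QuotientAddGroup.mk' S
  have hπ : ∀ q, π q = 0 ↔ q ∈ S := fun q => QuotientAddGroup.eq_zero_iff q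
  let d : ZMod M → (Q × ((ZMod M)ˣ → ℤ)) ⧸ S := fun a => π (c' a)
  have hd : OddDist d := by
    constructor
    · intro a; simp only [d, hc'.neg, map_neg]
    · intro a ha; simp only [d, hc'.half a ha, map_zero]
    · intro p e hp hpe a
      simp only [d]
      rw [← map_sum, hc'.dist p e hp hpe a]
  have hd0 : ∀ b ∈ BB M L0 true, d b = 0 := fun b hb => (hπ _).2 (hsingle b hb)
  obtain ⟨h1, h2⟩ := range_sub hd L0 hL0 hpw hprod hd0
  set E := (EE0 L0 true).erase [] with hE
  -- each relation has a label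
  have h3 : ∀ x : ZMod M → ℤ, ∃ J ∈ E.powerset, π (Φ x) = ∑ L ∈ J, d (one M L) := by
    intro x
    refine h2 _ ?_
    have h4 : π (Φ x) = ∑ a, x a • d a := by
      change π (∑ a, x a • c' a) = _
      rw [map_sum]
      simp only [map_zsmul, d]
    rw [h4]
    exact sum_mem fun a _ => zsmul_mem (h1 a) _
  choose J hJ hJ2 using h3
  have h5 : ∀ x x' : ZMod M → ℤ, Rel x → Rel x' → J x = J x' →
      ∑ a, x a • c a = ∑ a, x' a • c a := by
    intro x x' hx hx' hJJ
    have h6 : π (Φ x) = π (Φ x') := by rw [hJ2, hJ2, hJJ]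
    have h7 : Φ x - Φ x' ∈ S := by
      rw [← hπ, map_sub, h6, sub_self]
    obtain ⟨y, hyT, hyx⟩ := h7
    have hyRel : Rel y := by
      intro t
      have h8 := congrFun (hΦ2 y) t
      rw [hyx, Prod.snd_sub, Pi.sub_apply, hΦ2, hΦ2] at h8
      simp only [hx t, hx' t, sub_self] at h8
      exact h8.symm
    have hy0 := indep_B L0 hL0 hpw hprod hne y hyT hyRel
    rw [hy0, map_zero] at hyx
    have h9 : Φ x = Φ x' := (sub_eq_zero.1 hyx.symm)
    rw [← hΦ1, ← hΦ1, h9]
  -- the count
  have hsub : TV c ⊆ ↑(E.powerset.image fun I =>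
      if h : ∃ x : ZMod M → ℤ, Rel x ∧ J x = I then ∑ a, h.choose a • c a else 0) := by
    rintro q ⟨x, hx, rfl⟩
    rw [mem_coe, mem_image]
    refine ⟨J x, hJ x, ?_⟩
    have h : ∃ x' : ZMod M → ℤ, Rel x' ∧ J x' = J x := ⟨x, hx, rfl⟩
    rw [dif_pos h]
    exact h5 _ _ h.choose_spec.1 hx h.choose_spec.2
  refine ⟨(Finset.finite_toSet _).subset hsub, ?_⟩
  refine (Set.ncard_le_ncard hsub (Finset.finite_toSet _)).trans ?_
  rw [Set.ncard_coe_finset]
  refine card_image_le.trans ?_
  rw [card_powerset]
  exact Nat.pow_le_pow_right (by norm_num) (card_E hne)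

end

end Pool.Agent.H547_h
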